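import Mathlib

/-! Project ZB: the real inequality behind the core contradiction. -/

set_option autoImplicit false

namespace Pool.Agent.Helper94.ZB

theorem log_le_two_sqrt {x : ℝ} (hx : 0 < x) : Real.log x ≤ 2 * √x := by
  have h1 : Real.log (√x) ≤ √x - 1 := Real.log_le_sub_one_of_pos (Real.sqrt_pos.mpr hx)
  have h2 : Real.log x = 2 * Real.log (√x) := by
    rw [Real.log_sqrt hx.le]; ring
  rw [h2]
  linarith

/-- The lower order terms. -/
theorem small_terms (W w L E T n : ℝ) (hW : 1 ≤ W) (hw : W ≤ w) (hL : W * w ≤ L)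
    (hT : 0 < T) (hn1 : 2 * T ≤ n + 1) (hn2 : n ≤ 4 * L / w + 4) (hE0 : 0 ≤ E)
    (hE : E ≤ 4 * L / w + 4) :
    2 * (Real.log (2 * T) + Real.log (E + 2) + 8 * E) ≤ 200 * L / W := by
  have hw1 : 1 ≤ w := hW.trans hw
  have hW0 : 0 < W := by linarith
  have hw0 : 0 < w := by linarith
  have hWL : W ^ 2 ≤ L := by nlinarith
  have hL1 : 1 ≤ L := by nlinarith
  have hL0 : 0 < L := by linarith
  have hLw : L / w ≤ L / W := div_le_div_of_nonneg_left hL0.le hW0 hw
  have hLw1 : L / w ≤ L := (div_le_iff₀ hw0).mpr (by nlinarith)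
  have h1 : (1 : ℝ) ≤ L / W := by
    rw [le_div_iff₀ hW0]; nlinarith
  have hsq : √L ≤ L / W := by
    rw [le_div_iff₀ hW0]
    have h2 : W ≤ √L := Real.le_sqrt_of_sq_le hWL
    nlinarith [Real.mul_self_sqrt hL0.le, Real.sqrt_nonneg L]
  have e1 : 4 * L / w = 4 * (L / w) := by ring
  rw [e1] at hn2 hE
  have hA : Real.log (2 * T) ≤ 6 * (L / W) := by
    have h2 : 2 * T ≤ 9 * L := by linarith
    have h3 : Real.log (2 * T) ≤ Real.log (9 * L) := Real.log_le_log (by linarith) h2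
    have h4 := log_le_two_sqrt (x := 9 * L) (by linarith)
    have h5 : √(9 * L) = 3 * √L := by
      rw [Real.sqrt_mul (by norm_num)]
      congr 1
      rw [show (9 : ℝ) = 3 ^ 2 by norm_num]
      exact Real.sqrt_sq (by norm_num)
    rw [h5] at h4
    linarith
  have hB : Real.log (E + 2) ≤ 8 * (L / W) := by
    have h2 : E + 2 ≤ 16 * L := by linarith
    have h3 : Real.log (E + 2) ≤ Real.log (16 * L) := Real.log_le_log (by linarith) h2
    have h4 := log_le_two_sqrt (x := 16 * L) (by linarith)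
    have h5 : √(16 * L) = 4 * √L := by
      rw [Real.sqrt_mul (by norm_num)]
      congr 1
      rw [show (16 : ℝ) = 4 ^ 2 by norm_num]
      exact Real.sqrt_sq (by norm_num)
    rw [h5] at h4
    linarith
  have hC : 8 * E ≤ 64 * (L / W) := by linarith
  have e2 : 200 * L / W = 200 * (L / W) := by ring
  rw [e2]
  linarith

/-- The real inequality behind the contradiction: `n` is the number of points, `A + 1 = (n + 1) / 2`,
`r = (1 - η) I / b`, `SS` the sum of the norms, `E` bounds the exponents `e`. -/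
theorem core_num (δ : ℝ) (hδ : 0 < δ) (hδ1 : δ ≤ 1 / 2) : ∃ η W : ℝ, 0 < η ∧ η ≤ 1 / 100 ∧ 1 ≤ W ∧
    ∀ (w L b Tm I SS E T n : ℝ), 1 ≤ b → b ≤ 2 → W ≤ w → W * w ≤ L → δ * L ≤ I → I ≤ L →
    0 ≤ Tm → b ^ 2 * L * Tm * w ≤ (2 / 3 - δ) * I ^ 2 →
    (1 - η) * (((1 - η) * I / b) ^ 2 / (L * w)) ≤ n → n ≤ 2 * T → 2 * T ≤ n + 1 →
    n ≤ 4 * L / w + 4 → 0 ≤ E → E ≤ 4 * L / w + 4 →
    SS ≤ (1 + η) * (2 / 3) * (((1 - η) * I / b) ^ 3 / (L * w)) →
    I * (T - Tm / 4) ≤ 2 * T * (Real.log (2 * T) + Real.log (E + 2) + 8 * E) + b / 2 * SS →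
    False := by
  refine ⟨δ / 50, 10000 / δ ^ 2, by positivity, by linarith, ?_, ?_⟩
  · rw [le_div_iff₀ (by positivity)]
    nlinarith
  intro w L b Tm I SS E T n hb hb2 hw hL hI hIL hTm hbL hn hnT hTn hn4 hE0 hE hSS hmain
  set η : ℝ := δ / 50 with hη
  set W : ℝ := 10000 / δ ^ 2 with hW
  have hη0 : 0 < η := by rw [hη]; positivity
  have hη1 : η ≤ 1 / 100 := by rw [hη]; linarith
  have hW1 : 1 ≤ W := by
    rw [hW, le_div_iff₀ (by positivity)]
    nlinarith
  have hw0 : 0 < w := by linarith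
  have hL0 : 0 < L := by nlinarith
  have hI0 : 0 < I := lt_of_lt_of_le (by positivity) hI
  have hb0 : 0 < b := by linarith
  set r : ℝ := (1 - η) * I / b with hr
  have hr0 : 0 < r := by
    rw [hr]; apply div_pos (mul_pos (by linarith) hI0) hb0
  set Q : ℝ := r ^ 2 / (L * w) with hQ
  have hQ0 : 0 < Q := by rw [hQ]; positivity
  have hT0 : 0 < T := by
    have : 0 < (1 - η) * Q := mul_pos (by linarith) hQ0
    linarith
  have hsm := small_terms W w L E T n hW1 hw hL hT0 hTn hn4 hE0 hE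
  have hsm2 : 2 * (Real.log (2 * T) + Real.log (E + 2) + 8 * E) ≤ η * I := by
    refine hsm.trans ?_
    have e1 : 200 * L / W = η * (δ * L) := by
      rw [hW, hη]; field_simp; norm_num
    rw [e1]
    exact mul_le_mul_of_nonneg_left hI hη0.le
  have h1 : 2 * T * (Real.log (2 * T) + Real.log (E + 2) + 8 * E) ≤ T * (η * I) := by
    have := mul_le_mul_of_nonneg_left hsm2 hT0.le
    linarith
  have h2 : b / 2 * SS ≤ (1 + η) * (1 - η) / 3 * I * Q := by
    have e1 : r ^ 3 / (L * w) = r * Q := by rw [hQ]; ring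
    rw [e1] at hSS
    have e2 : b * r = (1 - η) * I := by rw [hr]; field_simp
    calc b / 2 * SS ≤ b / 2 * ((1 + η) * (2 / 3) * (r * Q)) :=
          mul_le_mul_of_nonneg_left hSS (by positivity)
      _ = (1 + η) / 3 * (b * r) * Q := by ring
      _ = _ := by rw [e2]; ring
  have h3 : (1 - η) * Q / 2 ≤ T := by linarith
  -- the bound for `Tm`
  have h4 : (1 - η) ^ 2 * Tm ≤ (2 / 3 - δ) * Q := by
    have e1 : Q * (b ^ 2 * L * w) = (1 - η) ^ 2 * I ^ 2 := by
      rw [hQ, hr]; field_simp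
    have hbLw : 0 < b ^ 2 * L * w := by positivity
    have h5 : ((1 - η) ^ 2 * Tm) * (b ^ 2 * L * w) ≤ ((2 / 3 - δ) * Q) * (b ^ 2 * L * w) := by
      calc ((1 - η) ^ 2 * Tm) * (b ^ 2 * L * w) = (1 - η) ^ 2 * (b ^ 2 * L * Tm * w) := by ring
        _ ≤ (1 - η) ^ 2 * ((2 / 3 - δ) * I ^ 2) := mul_le_mul_of_nonneg_left hbL (by positivity)
        _ = (2 / 3 - δ) * (Q * (b ^ 2 * L * w)) := by rw [e1]; ring
        _ = _ := by ring
    exact le_of_mul_le_mul_right h5 hbLw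
  -- combination
  have h6 : I * (T * (1 - η) - Tm / 4) ≤ (1 + η) * (1 - η) / 3 * I * Q := by
    have : I * (T - Tm / 4) ≤ T * (η * I) + (1 + η) * (1 - η) / 3 * I * Q := by linarith
    linarith
  have h7 : T * (1 - η) - Tm / 4 ≤ (1 + η) * (1 - η) / 3 * Q := by
    have e1 : (1 + η) * (1 - η) / 3 * I * Q = I * ((1 + η) * (1 - η) / 3 * Q) := by ring
    rw [e1] at h6
    exact le_of_mul_le_mul_left h6 hI0
  have h8 : (1 - η) ^ 2 * Q / 2 - Tm / 4 ≤ (1 + η) * (1 - η) / 3 * Q := by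
    have := mul_le_mul_of_nonneg_right h3 (show 0 ≤ 1 - η by linarith)
    linarith
  have h9 : 4 * (1 - η) ^ 2 * ((1 - η) ^ 2 / 2 - (1 + η) * (1 - η) / 3) * Q ≤
      (2 / 3 - δ) * Q := by
    have h10 : 4 * ((1 - η) ^ 2 / 2 - (1 + η) * (1 - η) / 3) * Q ≤ Tm := by linarith
    have h11 := mul_le_mul_of_nonneg_left h10 (show 0 ≤ (1 - η) ^ 2 by positivity)
    linarith
  have h12 : 4 * (1 - η) ^ 2 * ((1 - η) ^ 2 / 2 - (1 + η) * (1 - η) / 3) ≤ 2 / 3 - δ :=
    le_of_mul_le_mul_right h9 hQ0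
  have hδη : δ = 50 * η := by rw [hη]; ring
  rw [hδη] at h12
  nlinarith [mul_pos hη0 hη0, mul_pos (mul_pos hη0 hη0) hη0,
    mul_pos (mul_pos hη0 hη0) (mul_pos hη0 hη0)]

end Pool.Agent.Helper94.ZB
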